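import Mathlib

namespace Pool.Agent.H.MP_97cbc3_al

open Topology Set Function Filter

universe u

/-- A continuous map between two spaces. -/
structure Ar where
  A : Type u
  B : Type u
  [tA : TopologicalSpace A]
  [tB : TopologicalSpace B]
  f : A → B
  hf : Continuous f

attribute [instance] Ar.tA Ar.tB

def Lift (i p : Ar.{u}) : Prop :=
  ∀ (u : i.A → p.A) (v : i.B → p.B), Continuous u → Continuous v →
    (∀ a, p.f (u a) = v (i.f a)) →
    ∃ h : i.B → p.A, Continuous h ∧ (∀ a, h (i.f a) = u a) ∧ ∀ b, p.f (h b) = v b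

def l (P : Set Ar.{u}) : Set Ar.{u} := {i | ∀ p ∈ P, Lift i p}
def r (P : Set Ar.{u}) : Set Ar.{u} := {p | ∀ i ∈ P, Lift i p}

theorem sub_lr (P : Set Ar.{u}) : P ⊆ r (l P) := fun _ hp _ hi => hi _ hp
theorem sub_rl (P : Set Ar.{u}) : P ⊆ l (r P) := fun _ hp _ hi => hi _ hp
theorem l_anti {P Q : Set Ar.{u}} (h : P ⊆ Q) : l Q ⊆ l P := fun _ hi _ hp => hi _ (h hp)
theorem r_anti {P Q : Set Ar.{u}} (h : P ⊆ Q) : r Q ⊆ r P := fun _ hi _ hp => hi _ (h hp)
theorem lrl (P : Set Ar.{u}) : l (r (l P)) = l P :=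
  (l_anti (sub_lr P)).antisymm (sub_rl _)
theorem rlr (P : Set Ar.{u}) : r (l (r P)) = r P :=
  (r_anti (sub_rl P)).antisymm (sub_lr _)

/-! ### properties of maps -/

def Inj (f : Ar.{u}) : Prop := Injective f.f
def Sur (f : Ar.{u}) : Prop := Surjective f.f
def Ind (f : Ar.{u}) : Prop := IsInducing f.f
def Fin' (f : Ar.{u}) : Prop := ∀ T, IsOpen (f.f ⁻¹' T) → IsOpen T
def T1F (p : Ar.{u}) : Prop := ∀ a b, p.f a = p.f b → a ⤳ b → a = b
def T0F (p : Ar.{u}) : Prop := ∀ a b, p.f a = p.f b → Inseparable a b → a = b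
def NSur (f : Ar.{u}) : Prop := Nonempty f.A → Surjective f.f
def KK (i : Ar.{u}) : Prop := ∀ U, IsClopen U → (∀ a, i.f a ∉ U) → ∀ b, b ∉ U
def OO (i : Ar.{u}) : Prop := ∀ U, IsClosed U → (∀ a, i.f a ∉ U) → ∀ b, b ∉ U
def Den (i : Ar.{u}) : Prop := DenseRange i.f

theorem Inj.t1f {p : Ar.{u}} (h : Inj p) : T1F p := fun _ _ e _ => h e

/-! ### continuity of two-valued maps -/

section ite
variable {X Y : Type u} [TopologicalSpace X] [TopologicalSpace Y]

open Classical in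
noncomputable def sw (U : Set X) (a b : Y) : X → Y := fun x => if x ∈ U then a else b

omit [TopologicalSpace X] [TopologicalSpace Y] in
theorem sw_pos {U : Set X} {a b : Y} {x : X} (h : x ∈ U) : sw U a b x = a := if_pos h
omit [TopologicalSpace X] [TopologicalSpace Y] in
theorem sw_neg {U : Set X} {a b : Y} {x : X} (h : x ∉ U) : sw U a b x = b := if_neg h

theorem cont_sw_spec {U : Set X} (hU : IsOpen U) {a b : Y} (h : a ⤳ b) :
    Continuous (sw U a b) := by
  classical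
  exact hU.continuous_piecewise_of_specializes continuous_const continuous_const fun _ => h

theorem cont_sw_insep (U : Set X) {a b : Y} (h : Inseparable a b) :
    Continuous (sw U a b) := by
  refine continuous_def.2 fun V hV => ?_
  by_cases ha : a ∈ V
  · have hb := (h.mem_open_iff hV).1 ha
    convert isOpen_univ
    ext x; by_cases hx : x ∈ U <;> simp [sw, hx, ha, hb]
  · have hb : b ∉ V := fun hb => ha ((h.mem_open_iff hV).2 hb)
    convert isOpen_empty
    ext x; by_cases hx : x ∈ U <;> simp [sw, hx, ha, hb]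

theorem cont_sw_clopen {U : Set X} (hU : IsClopen U) (a b : Y) :
    Continuous (sw U a b) := by
  classical
  exact Continuous.piecewise (by simp [hU.frontier_eq]) continuous_const continuous_const

end ite

/-! ### small spaces -/

def I2 : Type u := ULift.{u} Bool
def S2 : Type u := ULift.{u} Bool
def D2 : Type u := ULift.{u} Bool
instance : TopologicalSpace I2.{u} := ⊤
instance : TopologicalSpace D2.{u} := ⊥
instance : DiscreteTopology D2.{u} := ⟨rfl⟩
instance : TopologicalSpace S2.{u} where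
  IsOpen U := (⟨false⟩ : ULift Bool) ∈ U → (⟨true⟩ : ULift Bool) ∈ U
  isOpen_univ := fun _ => trivial
  isOpen_inter _ _ h1 h2 h := ⟨h1 h.1, h2 h.2⟩
  isOpen_sUnion _ h := fun ⟨t, ht, h1⟩ => ⟨t, ht, h t ht h1⟩

def tt : ULift.{u} Bool := ⟨true⟩
def ff : ULift.{u} Bool := ⟨false⟩
theorem tt_ne : tt.{u} ≠ ff := fun h => by cases h
theorem two_cases (x : ULift.{u} Bool) : x = tt ∨ x = ff := by
  rcases x with ⟨_ | _⟩
  · exact Or.inr rfl
  · exact Or.inl rfl

theorem sw_tt_iff {X : Type u} {U : Set X} {x : X} : sw U tt ff x = tt ↔ x ∈ U :=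
  ⟨fun h => by_contra fun hx => tt_ne (h.symm.trans (sw_neg hx)), sw_pos⟩
theorem sw_tt {Y : Type u} (a b : Y) : sw {tt} a b tt = a := sw_pos rfl
theorem sw_ff {Y : Type u} (a b : Y) : sw {tt} a b ff = b := sw_neg tt_ne.symm
theorem sw_map {X Y Z : Type u} (g : Y → Z) (U : Set X) {a b : Y} (h : g a = g b) (x : X) :
    g (sw U a b x) = g a := by
  by_cases hx : x ∈ U
  · rw [sw_pos hx]
  · rw [sw_neg hx, h]

theorem I2_insep (a b : I2.{u}) : Inseparable a b := by
  rw [Inseparable, _root_.nhds_top, _root_.nhds_top]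
theorem cont_I2 {X : Type u} [TopologicalSpace X] (f : X → I2.{u}) : Continuous f :=
  continuous_top
theorem S2_spec : (show S2.{u} from tt) ⤳ (show S2.{u} from ff) :=
  specializes_iff_forall_open.2 fun _ hs h => hs h
theorem S2_open : IsOpen ({tt} : Set S2.{u}) := fun _ => rfl
theorem cont_S2 {X : Type u} [TopologicalSpace X] (f : S2.{u} → X) (h : f tt ⤳ f ff) :
    Continuous f := continuous_def.2 fun _ hV h1 => h.mem_open hV h1
theorem cont_from_I2 {X : Type u} [TopologicalSpace X] (f : I2.{u} → X)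
    (h : Inseparable (f tt) (f ff)) : Continuous f := by
  have : f = sw {tt} (f tt) (f ff) := by
    funext x
    rcases two_cases x with rfl | rfl
    · exact (sw_tt _ _).symm
    · exact (sw_ff _ _).symm
  rw [this]; exact cont_sw_insep _ h

abbrev ae : Ar.{u} := ⟨PEmpty, PUnit, PEmpty.elim, continuous_of_discreteTopology⟩
abbrev aj : Ar.{u} := ⟨PUnit, I2, fun _ => tt, continuous_const⟩
abbrev aι : Ar.{u} := ⟨I2, PUnit, fun _ => ⟨⟩, continuous_const⟩
abbrev aσ : Ar.{u} := ⟨S2, PUnit, fun _ => ⟨⟩, continuous_const⟩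
abbrev aβ : Ar.{u} := ⟨S2, I2, id, cont_I2 _⟩
abbrev aδ : Ar.{u} := ⟨D2, PUnit, fun _ => ⟨⟩, continuous_const⟩
abbrev ad : Ar.{u} := ⟨PUnit, D2, fun _ => tt, continuous_const⟩
abbrev ac : Ar.{u} := ⟨PUnit, S2, fun _ => ff, continuous_const⟩

/-! ### building lifts -/

theorem exists_fun {A B X Y : Type u} (i : A → B) (p : X → Y) (u : A → X) (v : B → Y)
    (hc : ∀ a, p (u a) = v (i a)) (h1 : ∀ a a', i a = i a' → u a = u a')
    (h2 : ∀ b, b ∉ range i → v b ∈ range p) :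
    ∃ h : B → X, (∀ a, h (i a) = u a) ∧ ∀ b, p (h b) = v b := by
  have : ∀ b, ∃ x, p x = v b ∧ ∀ a, i a = b → x = u a := by
    intro b
    by_cases hb : b ∈ range i
    · obtain ⟨a, rfl⟩ := hb
      exact ⟨u a, hc a, fun a' h => h1 _ _ h.symm⟩
    · obtain ⟨x, hx⟩ := h2 b hb
      exact ⟨x, hx, fun a h => absurd ⟨a, h⟩ hb⟩
  choose h h3 h4 using this
  exact ⟨h, fun a => h4 _ a rfl, h3⟩

theorem lift_of_fin {i p : Ar.{u}} (hi : Fin' i)
    (h : ∀ (u : i.A → p.A) (v : i.B → p.B), Continuous u → Continuous v →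
      (∀ a, p.f (u a) = v (i.f a)) →
      (∀ a a', i.f a = i.f a' → u a = u a') ∧ ∀ b, b ∉ range i.f → v b ∈ range p.f) :
    Lift i p := by
  intro u v hu hv hc
  obtain ⟨g, g1, g2⟩ := exists_fun i.f p.f u v hc (h u v hu hv hc).1 (h u v hu hv hc).2
  refine ⟨g, continuous_def.2 fun V hV => hi _ ?_, g1, g2⟩
  have : i.f ⁻¹' (g ⁻¹' V) = u ⁻¹' V := by ext a; simp [g1]
  rw [this]; exact hV.preimage hu

theorem lift_of_ind {i p : Ar.{u}} (hp : Ind p)
    (h : ∀ (u : i.A → p.A) (v : i.B → p.B), Continuous u → Continuous v →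
      (∀ a, p.f (u a) = v (i.f a)) →
      (∀ a a', i.f a = i.f a' → u a = u a') ∧ ∀ b, b ∉ range i.f → v b ∈ range p.f) :
    Lift i p := by
  intro u v hu hv hc
  obtain ⟨g, g1, g2⟩ := exists_fun i.f p.f u v hc (h u v hu hv hc).1 (h u v hu hv hc).2
  refine ⟨g, (IsInducing.continuous_iff hp).2 ?_, g1, g2⟩
  have : p.f ∘ g = v := funext g2
  rw [this]; exact hv

theorem inj_c {i p : Ar.{u}} (hp : Inj p) {u : i.A → p.A} {v : i.B → p.B}
    (hc : ∀ a, p.f (u a) = v (i.f a)) (a a' : i.A) (h : i.f a = i.f a') : u a = u a' :=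
  hp (by rw [hc, hc, h])

theorem fin_of_disc {i : Ar.{u}} [DiscreteTopology i.B] : Fin' i := fun _ _ => isOpen_discrete _

theorem ind_of_top {p : Ar.{u}} (h : ∀ a b : p.A, Inseparable a b) : Ind p := by
  refine ⟨le_antisymm p.hf.le_induced fun U hU => ?_⟩
  rcases U.eq_empty_or_nonempty with rfl | ⟨a, ha⟩
  · exact @isOpen_empty _ (TopologicalSpace.induced _ _)
  · have : U = univ := eq_univ_of_forall fun b => ((h a b).mem_open_iff hU).1 ha
    rw [this]; exact @isOpen_univ _ (TopologicalSpace.induced _ _)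

/-! ### lifting against the test maps -/

theorem e_lift {p : Ar.{u}} : Lift ae p ↔ Sur p := by
  constructor
  · intro h b
    obtain ⟨g, -, -, g2⟩ := h PEmpty.elim (fun _ => b) continuous_of_discreteTopology
      continuous_const (fun a => a.elim)
    exact ⟨_, g2 ⟨⟩⟩
  · intro h
    exact lift_of_fin (fun _ _ => isOpen_discrete (α := PUnit) _)
      fun u v _ _ _ => ⟨fun a => a.elim, fun b _ => h _⟩

theorem lift_j {i : Ar.{u}} : Lift i aj ↔ Sur i := by
  constructor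
  · intro h b
    obtain ⟨g, -, -, g2⟩ := h (fun _ => ⟨⟩) (sw (range i.f) tt ff) continuous_const (cont_I2 _)
      (fun a => (sw_pos (mem_range_self a)).symm)
    by_contra hb
    exact tt_ne ((g2 b).trans (sw_neg hb))
  · intro h
    exact lift_of_ind (ind_of_top fun _ _ => .refl _)
      fun u v _ _ _ => ⟨fun _ _ _ => rfl, fun b hb => absurd (h b) hb⟩

theorem lift_ι {i : Ar.{u}} : Lift i aι ↔ Inj i := by
  constructor
  · intro h a a' e
    obtain ⟨g, -, g1, -⟩ := h (sw {a} tt ff) (fun _ => ⟨⟩) (cont_I2 _) continuous_const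
      (fun _ => rfl)
    have h1 : sw {a} tt ff a' = tt :=
      (g1 a').symm.trans ((congrArg g e.symm).trans ((g1 a).trans (sw_pos rfl)))
    exact (sw_tt_iff.1 h1).symm
  · intro h
    exact lift_of_ind (ind_of_top I2_insep)
      fun u v _ _ _ => ⟨fun _ _ e => by rw [h e], fun b _ => ⟨tt, rfl⟩⟩

theorem ind_iff {i : Ar.{u}} : Ind i ↔ ∀ U, IsOpen U → ∃ V, IsOpen V ∧ i.f ⁻¹' V = U :=
  ⟨fun h _ hU => (IsInducing.isOpen_iff h).1 hU,
    fun h => ⟨le_antisymm i.hf.le_induced fun U hU => h U hU⟩⟩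

theorem lift_σ {i : Ar.{u}} (h : Ind i) : Lift i aσ := by
  intro u v hu _ _
  obtain ⟨V, hV, e⟩ := ind_iff.1 h _ (S2_open.preimage hu)
  refine ⟨sw V tt ff, cont_sw_spec hV S2_spec, fun a => ?_, fun _ => rfl⟩
  rcases two_cases (u a) with h1 | h1
  · rw [h1]; exact sw_pos (show a ∈ i.f ⁻¹' V from e ▸ h1)
  · rw [h1]; refine sw_neg fun h2 => ?_
    have : a ∈ u ⁻¹' {tt} := e ▸ h2
    exact tt_ne (this.symm.trans h1)

theorem ind_of_lift_σ {i : Ar.{u}} (h : Lift i aσ) : Ind i := by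
  refine ind_iff.2 fun U hU => ?_
  obtain ⟨g, g0, g1, -⟩ := h (sw U tt ff) (fun _ => ⟨⟩) (cont_sw_spec hU S2_spec)
    continuous_const (fun _ => rfl)
  refine ⟨_, S2_open.preimage g0, ?_⟩
  ext a
  exact ⟨fun h => sw_tt_iff.1 ((g1 a).symm.trans h), fun h => (g1 a).trans (sw_pos h)⟩

theorem fin_of_lift_β {i : Ar.{u}} (h : Lift i aβ) : Fin' i := by
  intro T hT
  obtain ⟨g, g0, -, g2⟩ := h (sw (i.f ⁻¹' T) tt ff) (sw T tt ff) (cont_sw_spec hT S2_spec)
    (cont_I2 _) (fun _ => rfl)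
  have : T = g ⁻¹' {tt} := by
    ext b
    exact ⟨fun h => (g2 b).trans (sw_pos h), fun h => sw_tt_iff.1 ((g2 b).symm.trans h)⟩
  rw [this]; exact S2_open.preimage g0

theorem den_of_lift_c {i : Ar.{u}} (h : Lift i ac) : Den i := by
  intro b
  obtain ⟨g, -, -, g2⟩ := h (fun _ => ⟨⟩) (sw (closure (range i.f))ᶜ tt ff) continuous_const
    (cont_sw_spec isClosed_closure.isOpen_compl S2_spec)
    (fun a => (sw_neg (U := (closure (range i.f))ᶜ)
      fun h => h (subset_closure (mem_range_self a))).symm)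
  by_contra hb
  exact tt_ne ((g2 b).trans (sw_pos hb)).symm

theorem δ_lift {p : Ar.{u}} : Lift aδ p ↔ Inj p := by
  constructor
  · intro h a a' e
    obtain ⟨g, -, g1, -⟩ := h (sw {tt} a a') (fun _ => p.f a) continuous_bot continuous_const
      (fun x => sw_map _ _ e x)
    exact (sw_tt a a').symm.trans (((g1 tt).symm.trans (g1 ff)).trans (sw_ff a a'))
  · intro h
    exact lift_of_fin (fun _ _ => isOpen_discrete (α := PUnit) _)
      fun u v _ _ hc => ⟨inj_c h hc, fun b hb => absurd ⟨tt, rfl⟩ hb⟩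

theorem d_lift {p : Ar.{u}} (h : NSur p) : Lift ad p :=
  lift_of_fin (fun _ _ => isOpen_discrete (α := D2) _)
    fun u _ _ _ _ => ⟨fun _ _ _ => rfl, fun _ _ => h ⟨u ⟨⟩⟩ _⟩

theorem ι_lift {p : Ar.{u}} (h : T0F p) : Lift aι p :=
  lift_of_fin (fun _ _ => isOpen_discrete (α := PUnit) _)
    fun u _ hu _ hc => ⟨fun a a' _ => h _ _ ((hc a).trans (hc a').symm)
      ((I2_insep a a').map hu), fun _ hb => absurd ⟨tt, rfl⟩ hb⟩

theorem σ_lift {p : Ar.{u}} (h : T1F p) : Lift aσ p :=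
  lift_of_fin (fun _ _ => isOpen_discrete (α := PUnit) _)
    fun u _ hu _ hc => ⟨fun a a' _ => by
      have := h _ _ ((hc tt).trans (hc ff).symm) (S2_spec.map hu)
      rcases two_cases a with rfl | rfl <;> rcases two_cases a' with rfl | rfl
      exacts [rfl, this, this.symm, rfl],
      fun _ hb => absurd ⟨tt, rfl⟩ hb⟩

theorem t1f_of_σ_lift {p : Ar.{u}} (h : Lift aσ p) : T1F p := by
  intro a a' e hs
  obtain ⟨g, -, g1, -⟩ := h (sw {tt} a a') (fun _ => p.f a) (cont_sw_spec S2_open hs)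
    continuous_const (fun x => sw_map _ _ e x)
  exact (sw_tt a a').symm.trans (((g1 tt).symm.trans (g1 ff)).trans (sw_ff a a'))

theorem β_lift {p : Ar.{u}}
    (h : ∀ a b : p.A, a ⤳ b → Inseparable (p.f a) (p.f b) → b ⤳ a) : Lift aβ p := by
  intro u v hu hv hc
  refine ⟨u, cont_from_I2 _ ?_, fun _ => rfl, hc⟩
  have h1 := S2_spec.map hu
  refine h1.antisymm (h _ _ h1 ?_)
  rw [hc, hc]; exact (I2_insep _ _).map hv

theorem c_lift {p : Ar.{u}}
    (h : ∀ e b, b ⤳ p.f e → ∃ e', p.f e' = b ∧ e' ⤳ e) : Lift ac p := by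
  intro u v _ hv hc
  obtain ⟨e', h1, h2⟩ := h (u ⟨⟩) (v tt) (by rw [hc]; exact S2_spec.map hv)
  refine ⟨sw {tt} e' (u ⟨⟩), cont_sw_spec S2_open h2, fun _ => sw_neg tt_ne.symm, fun b => ?_⟩
  rcases two_cases b with rfl | rfl
  · exact (congrArg p.f (sw_tt _ _)).trans h1
  · exact (congrArg p.f (sw_ff _ _)).trans (hc _)

theorem j_lift {p : Ar.{u}}
    (h : ∀ e b, Inseparable b (p.f e) → ∃ e', p.f e' = b ∧ Inseparable e' e) : Lift aj p := by
  intro u v _ hv hc
  obtain ⟨e', h1, h2⟩ := h (u ⟨⟩) (v ff) (by rw [hc]; exact (I2_insep _ _).map hv)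
  refine ⟨sw {tt} (u ⟨⟩) e', cont_sw_insep _ h2.symm, fun _ => sw_pos rfl, fun b => ?_⟩
  rcases two_cases b with rfl | rfl
  · exact (congrArg p.f (sw_tt _ _)).trans (hc _)
  · exact (congrArg p.f (sw_ff _ _)).trans h1

end Pool.Agent.H.MP_97cbc3_al
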