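import Pool.Agent.H.MP_97cbc3_al.A

namespace Pool.Agent.H.MP_97cbc3_al

open Topology Set Function Filter

universe u

def GenL (b : Prop × Prop × Prop) : Set Ar.{u} :=
  {p | (b.1 → Inj p) ∧ (b.2.1 → Sur p) ∧ (b.2.2 → NSur p)}
def GR (b : Prop × Prop × Prop × Prop) : Set Ar.{u} :=
  {i | (b.1 → Ind i) ∧ (b.2.1 → Inj i) ∧ (b.2.2.1 → Den i) ∧ (b.2.2.2 → Fin' i)}
def F0 : Set (Set Ar.{u}) :=
  range (fun b => l (GenL b)) ∪ range (fun b => r (GR b)) ∪ {{p | T1F p}}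

theorem F0_finite : F0.{u}.Finite :=
  ((finite_range _).union (finite_range _)).union (finite_singleton _)

theorem Fin'.clopen {g : Ar.{u}} (h : Fin' g) {y : g.B} (hy : y ∉ range g.f) :
    IsClopen ({y} : Set g.B) := by
  have : g.f ⁻¹' {y} = ∅ := eq_empty_of_forall_notMem fun a ha => hy ⟨a, ha⟩
  exact ⟨isOpen_compl_iff.1 (h _ (by rw [preimage_compl, this]; simp)), h _ (by rw [this]; simp)⟩

theorem hitL {Y : Set Ar.{u}} (h1 : ∀ g ∈ l Y, Fin' g)
    (h2 : (∀ g ∈ l Y, Inj g) ∨ ∀ p ∈ Y, Inj p) : l Y ∈ F0 := by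
  refine Or.inl (Or.inl ⟨⟨∀ p ∈ Y, Inj p, ∀ p ∈ Y, Sur p, ∀ p ∈ Y, NSur p⟩, ?_⟩)
  refine Subset.antisymm
    (l_anti fun p hp => ⟨fun h => h p hp, fun h => h p hp, fun h => h p hp⟩) ?_
  rintro g hg p ⟨p1, p2, p3⟩
  refine lift_of_fin (h1 g hg) fun u v _ _ hc => ⟨fun a a' e => ?_, fun y hy => ?_⟩
  · rcases h2 with h2 | h2
    · rw [h2 g hg e]
    · exact inj_c (p1 h2) hc _ _ e
  · rcases isEmpty_or_nonempty g.A with hA | ⟨⟨a⟩⟩
    · refine p2 (fun p' hp' b => ?_) _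
      obtain ⟨k, -, -, k2⟩ := hg p' hp' isEmptyElim (fun _ => b) (by fun_prop)
        continuous_const isEmptyElim
      exact ⟨_, k2 y⟩
    · refine p3 (fun p' hp' ⟨e⟩ b => ?_) ⟨u a⟩ _
      obtain ⟨k, -, -, k2⟩ := hg p' hp' (fun _ => e) (sw {y} b (p'.f e)) continuous_const
        (cont_sw_clopen ((h1 g hg).clopen hy) _ _) (fun a => (sw_neg fun h => hy ⟨a, h⟩).symm)
      exact ⟨_, (k2 y).trans (sw_pos rfl)⟩

theorem hitR {X : Set Ar.{u}} (h : ∀ p ∈ r X, ∀ i : Ar.{u}, ((∀ i ∈ X, Ind i) → Ind i) →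
    ((∀ i ∈ X, Inj i) → Inj i) → ((∀ i ∈ X, Den i) → Den i) → ((∀ i ∈ X, Fin' i) → Fin' i) →
    Lift i p) : r X ∈ F0 := by
  refine Or.inl (Or.inr ⟨⟨∀ i ∈ X, Ind i, ∀ i ∈ X, Inj i, ∀ i ∈ X, Den i, ∀ i ∈ X, Fin' i⟩, ?_⟩)
  refine Subset.antisymm (r_anti fun p hp =>
    ⟨fun h => h p hp, fun h => h p hp, fun h => h p hp, fun h => h p hp⟩) ?_
  rintro p hp i ⟨a, b, c, d⟩
  exact h p hp i a b c d

theorem inj_or_t0f {i p : Ar.{u}} (h : Lift i p) : Inj i ∨ T0F p := by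
  by_cases hi : Inj i
  · exact Or.inl hi
  refine Or.inr fun e e' hp hs => ?_
  obtain ⟨a, a', h1, h2⟩ := not_injective_iff.1 hi
  obtain ⟨g, -, g1, -⟩ := h (sw {a} e e') (fun _ => p.f e) (cont_sw_insep _ hs) continuous_const
    (sw_map _ _ hp)
  have := (g1 a).symm.trans ((congrArg g h1).trans (g1 a'))
  rwa [sw_pos (mem_singleton a), sw_neg (U := {a}) (fun h => h2 (Eq.symm h))] at this

theorem ι_mem {X : Set Ar.{u}} {f : Ar.{u}} (hf : f ∈ l X) (h : ¬ Inj f) : aι ∈ l X :=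
  fun p hp => ι_lift ((inj_or_t0f (hf p hp)).resolve_left h)

theorem nind {X : Set Ar.{u}} {f : Ar.{u}} (hf : f ∈ l X) (h : ¬ Ind f) :
    (∀ p ∈ X, T1F p) ∨ aβ ∈ l X := by
  rw [ind_iff] at h
  push Not at h
  obtain ⟨U, hU, h⟩ := h
  by_cases hs : ∃ a ∈ U, ∃ a' ∉ U, f.f a = f.f a'
  · obtain ⟨a, ha, a', ha', e⟩ := hs
    refine Or.inl fun p hp e1 e2 h1 h2 => ?_
    obtain ⟨g, -, g1, -⟩ := hf p hp (sw U e1 e2) (fun _ => p.f e1) (cont_sw_spec hU h2)
      continuous_const (sw_map _ _ h1)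
    have := (g1 a).symm.trans ((congrArg g e).trans (g1 a'))
    rwa [sw_pos ha, sw_neg ha'] at this
  · refine Or.inr fun p hp => β_lift fun e1 e2 h1 h2 => ?_
    obtain ⟨g, g0, g1, -⟩ := hf p hp (sw U e1 e2) (sw (f.f '' U) (p.f e1) (p.f e2))
      (cont_sw_spec hU h1) (cont_sw_insep _ h2) (fun a => by
        by_cases ha : a ∈ U
        · rw [sw_pos ha, sw_pos (mem_image_of_mem _ ha)]
        · rw [sw_neg ha, sw_neg (U := f.f '' U) fun ⟨a', h1, h2⟩ => hs ⟨a', h1, a, ha, h2⟩])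
    refine specializes_iff_forall_open.2 fun V hV h3 => by_contra fun h4 => ?_
    refine h _ (hV.preimage g0) (Set.ext fun a => ?_)
    rw [mem_preimage, mem_preimage, g1]
    by_cases ha : a ∈ U
    · simp [sw_pos ha, ha, h3]
    · simp [sw_neg ha, ha, h4]

/-! ### closure facts -/

theorem lr_sur {L : Set Ar.{u}} (h : ∀ f ∈ L, Sur f) : ∀ f ∈ r (l L), Sur f :=
  fun _ hf => e_lift.1 (hf _ fun _ hp => e_lift.2 (h _ hp))
theorem lr_inj {L : Set Ar.{u}} (h : ∀ f ∈ L, Inj f) : ∀ f ∈ r (l L), Inj f :=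
  fun _ hf => δ_lift.1 (hf _ fun _ hp => δ_lift.2 (h _ hp))
theorem rl_sur {L : Set Ar.{u}} (h : ∀ f ∈ L, Sur f) : ∀ f ∈ l (r L), Sur f :=
  fun _ hf => lift_j.1 (hf _ fun _ hp => lift_j.2 (h _ hp))
theorem rl_inj {L : Set Ar.{u}} (h : ∀ f ∈ L, Inj f) : ∀ f ∈ l (r L), Inj f :=
  fun _ hf => lift_ι.1 (hf _ fun _ hp => lift_ι.2 (h _ hp))
theorem rl_ind {L : Set Ar.{u}} (h : ∀ f ∈ L, Ind f) : ∀ f ∈ l (r L), Ind f :=
  fun _ hf => ind_of_lift_σ (hf _ fun _ hp => lift_σ (h _ hp))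

theorem bij_lift_ind {i p : Ar.{u}} (h1 : Inj i) (h2 : Sur i) (hp : Ind p) : Lift i p :=
  lift_of_ind hp fun _ _ _ _ _ => ⟨fun _ _ e => by rw [h1 e], fun b hb => absurd (h2 b) hb⟩

theorem lr_ind {L : Set Ar.{u}} (h : ∀ f ∈ L, Ind f) : ∀ f ∈ r (l L), Ind f := by
  intro p hp
  let i : Ar.{u} := @Ar.mk p.A p.A p.tA (TopologicalSpace.induced p.f p.tB) id
    (continuous_induced_rng.2 p.hf)
  obtain ⟨g, g0, g1, -⟩ := hp i (fun f hf => bij_lift_ind injective_id surjective_id (h f hf))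
    id p.f continuous_id continuous_induced_dom (fun _ => rfl)
  have : g = id := funext g1
  subst this
  exact ⟨le_antisymm p.hf.le_induced (continuous_id_iff_le.1 g0)⟩

/-! ### corestriction -/

abbrev cores (f : Ar.{u}) : Ar.{u} := ⟨f.A, range f.f, rangeFactorization f.f, f.hf.subtype_mk _⟩
abbrev incl (f : Ar.{u}) : Ar.{u} := ⟨range f.f, f.B, Subtype.val, continuous_subtype_val⟩

theorem lift_of_parts {i p : Ar.{u}} (h1 : Lift (cores i) p) (h2 : Lift (incl i) p) :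
    Lift i p := by
  intro u v hu hv hc
  obtain ⟨g, g0, g1, g2⟩ := h1 u (v ∘ Subtype.val) hu (hv.comp continuous_subtype_val) hc
  obtain ⟨k, k0, k1, k2⟩ := h2 g v g0 hv g2
  exact ⟨k, k0, fun a => (k1 ⟨_, a, rfl⟩).trans (g1 a), k2⟩

/-! ### the first absorbing lemma -/

inductive W (g : Ar.{u}) : Type u
  | a (x : g.A)
  | b (y : g.B) (n : Option ℕ)

instance (g : Ar.{u}) : TopologicalSpace (W g) where
  IsOpen U := IsOpen (W.a ⁻¹' U : Set g.A) ∧
    (∀ x, W.a x ∈ U → W.b (g.f x) (some 0) ∈ U) ∧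
    ∀ y, W.b (y) (none) ∈ U → (∀ n, W.b (y) (some n) ∈ U) ∧
      ∀ᶠ z in 𝓝 y, ∀ᶠ n in atTop, W.b (z) (some n) ∈ U
  isOpen_univ := ⟨isOpen_univ, fun _ _ => trivial, fun _ _ => ⟨fun _ => trivial,
    .of_forall fun _ => .of_forall fun _ => trivial⟩⟩
  isOpen_inter _ _ h1 h2 := ⟨h1.1.inter h2.1, fun x h => ⟨h1.2.1 x h.1, h2.2.1 x h.2⟩,
    fun y h => ⟨fun n => ⟨(h1.2.2 y h.1).1 n, (h2.2.2 y h.2).1 n⟩,
      ((h1.2.2 y h.1).2.and (h2.2.2 y h.2).2).mono fun _ h => h.1.and h.2⟩⟩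
  isOpen_sUnion s h := ⟨by
      rw [preimage_sUnion]; exact isOpen_biUnion fun t ht => (h t ht).1,
    fun x ⟨t, ht, h1⟩ => ⟨t, ht, (h t ht).2.1 x h1⟩,
    fun y ⟨t, ht, h1⟩ => ⟨fun n => ⟨t, ht, ((h t ht).2.2 y h1).1 n⟩,
      ((h t ht).2.2 y h1).2.mono fun _ h2 => h2.mono fun _ h3 => ⟨t, ht, h3⟩⟩⟩

def Wq (g : Ar.{u}) : W g → g.B
  | .a x => g.f x
  | .b y _ => y

theorem Wq_cont (g : Ar.{u}) : Continuous (Wq g) := continuous_def.2 fun _ hT =>
  ⟨hT.preimage g.hf, fun _ h => h, fun _ h => ⟨fun _ => h,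
    (hT.eventually_mem h).mono fun _ h1 => .of_forall fun _ => h1⟩⟩

theorem Wq_lift (g : Ar.{u}) {p : Ar.{u}} (hp : T1F p) : Lift ⟨W g, g.B, Wq g, Wq_cont g⟩ p := by
  refine lift_of_fin (fun T hT => isOpen_iff_mem_nhds.2 fun y hy =>
    (hT.2.2 y hy).2.mono fun _ h => h.exists.choose_spec) fun u v hu _ hc => ⟨?_, fun y hy =>
      absurd ⟨W.b (y) (none), rfl⟩ hy⟩
  have k1 : ∀ y n, u (W.b (y) (some n)) = u (W.b (y) (none)) := fun y n =>
    hp _ _ ((hc _).trans (hc (W.b y none)).symm) (Specializes.map (specializes_iff_forall_open.2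
      fun _ hs h => (hs.2.2 y h).1 n) hu)
  have k2 : ∀ w, u w = u (W.b (Wq g w) (none)) := by
    rintro (x | ⟨y, _ | n⟩)
    · have h1 : (W.b (g.f x) (some 0) : W g) ⤳ W.a x :=
        specializes_iff_forall_open.2 fun _ hs h => hs.2.1 x h
      exact Eq.trans (hp _ _ ((hc (W.b (g.f x) (some 0))).trans (hc (W.a x)).symm)
        (h1.map hu)).symm (k1 _ 0)
    · rfl
    · exact k1 y n
  intro a a' e
  rw [k2 a, k2 a']
  exact congrArg (fun y => u (W.b (y) (none))) e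

theorem L1core {X : Set Ar.{u}} (h : ∀ p ∈ X, T1F p) {g : Ar.{u}} (hg : g ∈ l (l X)) :
    Fin' g ∧ Inj g := by
  obtain ⟨s, s0, s1, s2⟩ := hg _ (fun p hp => Wq_lift g (h p hp)) W.a id
    (continuous_def.2 fun _ hU => hU.1) continuous_id (fun _ => rfl)
  refine ⟨fun T hT => isOpen_iff_forall_mem_open.2 fun y hy => ?_, fun a a' e => ?_⟩
  · by_cases hr : y ∈ range g.f
    · obtain ⟨x, rfl⟩ := hr
      let U : Set (W g) := {w | Wq g w ∈ T ∧ ∀ y, w ≠ W.b (y) (none)}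
      have hU : IsOpen U := by
        refine ⟨?_, fun x h => ⟨h.1, fun _ h => by cases h⟩, fun y h => absurd rfl (h.2 y)⟩
        convert hT using 1
        ext x
        exact ⟨fun h => h.1, fun h => ⟨h, fun _ h => by cases h⟩⟩
      refine ⟨s ⁻¹' U, fun z hz => ?_, hU.preimage s0, ?_⟩
      · have h1 : Wq g (s z) = z := s2 z
        exact h1 ▸ hz.1
      · rw [mem_preimage, s1]; exact ⟨hy, fun _ h => by cases h⟩
    · let U : Set (W g) := {w | Wq g w = y ∨ (∃ z n, w = W.b (z) (some n)) ∧ w ≠ s (Wq g w)}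
      have hU : IsOpen U := by
        refine ⟨?_, fun x h => ?_, fun z h => ?_⟩
        · convert isOpen_empty
          refine eq_empty_of_forall_notMem fun x h => ?_
          rcases h with h | ⟨⟨_, _, h⟩, -⟩
          exacts [hr ⟨x, h⟩, by cases h]
        · rcases h with h | ⟨⟨_, _, h⟩, -⟩
          exacts [absurd ⟨x, h⟩ hr, by cases h]
        · rcases h with h | ⟨⟨_, _, h⟩, -⟩
          · refine ⟨fun _ => Or.inl h, .of_forall fun z' => ?_⟩
            by_cases h1 : ∃ m, s z' = W.b (z') (some m)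
            · obtain ⟨m, hm⟩ := h1
              refine (eventually_gt_atTop m).mono fun n hn => Or.inr ⟨⟨_, _, rfl⟩, fun h2 => ?_⟩
              have h3 := h2.trans hm
              cases h3
              exact lt_irrefl _ hn
            · exact .of_forall fun n => Or.inr ⟨⟨_, _, rfl⟩, fun h2 => h1 ⟨n, h2.symm⟩⟩
          · cases h
      refine ⟨s ⁻¹' U, fun z hz => ?_, hU.preimage s0, Or.inl (s2 y)⟩
      have h1 : Wq g (s z) = z := s2 z
      rcases hz with hz | ⟨-, hz⟩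
      · rw [h1] at hz; exact hz ▸ hy
      · rw [h1] at hz; exact absurd rfl hz
  · exact W.a.inj ((s1 a).symm.trans ((congrArg s e).trans (s1 a')))

theorem L1 {X : Set Ar.{u}} (h : ∀ p ∈ X, T1F p) : l (l X) ∈ F0 :=
  hitL (fun _ hg => (L1core h hg).1) (Or.inl fun _ hg => (L1core h hg).2)

/-! ### the second absorbing lemma -/

inductive V3 : Type u
  | bot
  | pt (x : D2.{u})

instance : TopologicalSpace V3.{u} where
  IsOpen U := V3.bot ∈ U → ∀ x, x ∈ U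
  isOpen_univ := fun _ _ => trivial
  isOpen_inter _ _ h1 h2 h x := ⟨h1 h.1 x, h2 h.2 x⟩
  isOpen_sUnion _ h := fun ⟨t, ht, h1⟩ x => ⟨t, ht, h t ht h1 x⟩

abbrev aV : Ar.{u} := ⟨D2, V3, V3.pt, continuous_bot⟩
abbrev a0 (B : Type u) [TopologicalSpace B] : Ar.{u} := ⟨PEmpty, B, PEmpty.elim, by fun_prop⟩

theorem aV_ind : Ind aV.{u} := ind_iff.2 fun U _ =>
  ⟨V3.pt '' U, fun ⟨_, _, h⟩ => (by cases h), preimage_image_eq _ fun _ _ => V3.pt.inj⟩

theorem sect {p : Ar.{u}} (h : Lift (a0 p.B) p) : ∃ s : p.B → p.A, Continuous s ∧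
    ∀ b, p.f (s b) = b := by
  obtain ⟨s, s0, -, s2⟩ := h PEmpty.elim id (by fun_prop) continuous_id (fun a => a.elim)
  exact ⟨s, s0, s2⟩

theorem R1 {X : Set Ar.{u}} (h : ∀ i ∈ X, Sur i) : r (r X) ∈ F0 := by
  have emb : ∀ f : Ar.{u}, Ind f → Inj f → f ∈ r X := fun f h1 h2 i hi =>
    lift_of_ind h1 fun _ _ _ _ hc => ⟨inj_c h2 hc, fun b hb => absurd (h i hi b) hb⟩
  refine hitR fun p hp i i1 i2 _ _ => ?_
  obtain ⟨s, s0, s2⟩ := sect (hp _ (emb (a0 p.B) (ind_of_top fun a => a.elim) fun a => a.elim))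
  have hinj : ¬ T0F p → Inj i := fun h0 =>
    i2 fun j hj => (inj_or_t0f (hp j hj)).resolve_right h0
  by_cases hF : ∀ a b, p.f a = p.f b → Inseparable a b
  · refine lift_of_ind (ind_iff.2 fun U hU => ⟨s ⁻¹' U, hU.preimage s0, Set.ext fun a =>
      (hF _ _ (s2 _)).mem_open_iff hU⟩) fun u v _ _ hc => ⟨fun a a' e => ?_, fun b _ => ⟨_, s2 _⟩⟩
    by_cases h0 : T0F p
    · have : p.f (u a) = p.f (u a') := by rw [hc, hc, e]
      exact h0 _ _ this (hF _ _ this)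
    · rw [hinj h0 e]
  · push Not at hF
    obtain ⟨e1, e2, h1, h2⟩ := hF
    obtain ⟨g, g0, g1, g2⟩ := hp _ (emb aV aV_ind fun _ _ => V3.pt.inj) (sw {tt} e1 e2)
      (fun _ => p.f e1) continuous_bot continuous_const (sw_map _ _ h1)
    have k : ∀ x : V3, g x ⤳ g .bot := fun x =>
      Specializes.map (specializes_iff_forall_open.2 fun _ hs h => hs h x) g0
    have k1 : ∃ x : V3, ¬ g .bot ⤳ g x := by
      by_contra hx
      push Not at hx
      have a1 : g (.pt tt) = e1 := (g1 tt).trans (sw_tt _ _)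
      have a2 : g (.pt ff) = e2 := (g1 ff).trans (sw_ff _ _)
      exact h2 (a1 ▸ a2 ▸ ((k _).trans (hx _)).antisymm ((k _).trans (hx _)))
    obtain ⟨x, hx⟩ := k1
    rw [specializes_iff_forall_open] at hx
    push Not at hx
    obtain ⟨V, hV, v1, v2⟩ := hx
    have hind : Ind i := by
      refine i1 fun j hj => ind_iff.2 fun U hU => ?_
      obtain ⟨t, t0, t1, -⟩ := hp j hj (sw U (g x) (g .bot)) (fun _ => p.f (g x))
        (cont_sw_spec hU (k x)) continuous_const (sw_map _ _ ((g2 _).trans (g2 _).symm))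
      refine ⟨_, hV.preimage t0, Set.ext fun a => ?_⟩
      rw [mem_preimage, mem_preimage, t1]
      by_cases ha : a ∈ U
      · simp [sw_pos ha, ha, v1]
      · simp [sw_neg ha, ha, v2]
    by_cases h0 : T0F p
    · refine lift_of_parts ?_ (hp _ (emb _ IsInducing.subtypeVal Subtype.val_injective))
      refine lift_of_fin (fun T hT => ?_) fun u v hu _ hc => ⟨fun a a' e => ?_,
        fun b hb => absurd (rangeFactorization_surjective b) hb⟩
      · exact ((IsInducing.codRestrict hind _).isQuotientMap_of_surjective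
          rangeFactorization_surjective).isOpen_preimage.1 hT
      · refine h0 _ _ (by rw [hc, hc, e]) (Inseparable.map ?_ hu)
        exact (IsInducing.inseparable_iff hind).1 (.of_eq (congrArg Subtype.val e))
    · exact hp _ (emb i hind (hinj h0))

end Pool.Agent.H.MP_97cbc3_al
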