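import Pool.Agent.H.MP_97cbc3_al.B

namespace Pool.Agent.H.MP_97cbc3_al

open Topology Set Function Filter Cardinal

universe u

theorem big (T : Type u) : ∃ (κ : Type u) (F : Filter κ), (∀ k, {k}ᶜ ∈ F) ∧
    ∀ h : κ → T, ∃ ω, ∃ᶠ k in F, h k = ω := by
  let α := T ⊕ ULift.{u} ℕ
  have h0 : ℵ₀ ≤ #α := aleph0_le_mk α
  have h1 : #α < #(Set α) := by rw [mk_set]; exact cantor _
  refine ⟨Set α, cocardinal (Set α) (isRegular_succ h0), fun k => ?_, fun h => ?_⟩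
  · rw [mem_cocardinal, compl_compl, mk_singleton]
    exact one_lt_aleph0.trans_le (h0.trans (Order.le_succ _))
  · obtain ⟨a, ha⟩ := infinite_pigeonhole_card_lt (fun k => (Sum.inl (h k) : α)) h1
      (h0.trans h1.le)
    rcases a with ω | n
    · refine ⟨ω, frequently_cocardinal.2 ((Order.succ_le_of_lt ha).trans (mk_le_mk_of_subset ?_))⟩
      exact fun k hk => Sum.inl_injective hk
    · have : (fun k => (Sum.inl (h k) : α)) ⁻¹' {Sum.inr n} = ∅ :=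
        eq_empty_of_forall_notMem fun k hk => by cases hk
      rw [this] at ha
      exact absurd (ha.trans_eq (mk_eq_zero _)) (not_lt.2 bot_le)

abbrev sub {Y : Type u} [TopologicalSpace Y] (s : Set Y) : Ar.{u} :=
  ⟨s, Y, Subtype.val, continuous_subtype_val⟩

theorem lift_sub {i : Ar.{u}} {Y : Type u} [TopologicalSpace Y] (s : Set Y)
    (h : ∀ v : i.B → Y, Continuous v → (∀ a, v (i.f a) ∈ s) → ∀ b, v b ∈ s) : Lift i (sub s) :=
  lift_of_ind IsInducing.subtypeVal fun u v _ hv hc => ⟨inj_c (p := sub s) Subtype.val_injective hc,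
    fun b _ => ⟨⟨_, h v hv (fun a => hc a ▸ (u a).2) b⟩, rfl⟩⟩

inductive KS {κ : Type u} (F : Filter κ) : Type u
  | x (b : ULift.{u} Bool)
  | k (a : κ)

instance {κ : Type u} (F : Filter κ) : TopologicalSpace (KS F) where
  IsOpen U := ∀ b, KS.x b ∈ U → ∀ᶠ a in F, KS.k a ∈ U
  isOpen_univ := fun _ _ => .of_forall fun _ => trivial
  isOpen_inter _ _ h1 h2 b h := (h1 b h.1).and (h2 b h.2)
  isOpen_sUnion _ h := fun b ⟨t, ht, h1⟩ => (h t ht b h1).mono fun _ h2 => ⟨t, ht, h2⟩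

theorem lemK {X : Set Ar.{u}} (hX : ∀ i ∈ X, KK i) {p : Ar.{u}} (hp : p ∈ r (r X))
    {e1 e2 : p.A} {b : p.B} (h1 : b ⤳ p.f e1) (h2 : b ⤳ p.f e2) :
    ∃ ω, p.f ω = b ∧ ω ⤳ e1 ∧ ω ⤳ e2 := by
  obtain ⟨κ, F, F1, F2⟩ := big p.A
  let s : Set (KS F) := range KS.x
  have hs : sub s ∈ r X := by
    refine fun i hi => lift_sub s fun v hv h y => ?_
    rcases hy : v y with t | a
    · exact ⟨t, rfl⟩
    · refine absurd hy (hX i hi (v ⁻¹' {KS.k a}) (IsClopen.preimage ⟨isOpen_compl_iff.1 ?_, ?_⟩ hv)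
        (fun a' h' => ?_) y)
      · exact fun _ _ => mem_of_superset (F1 a) fun a' h h' => h (KS.k.inj h')
      · exact fun _ h => by cases h
      · obtain ⟨t, ht⟩ := h a'
        cases ht.trans h'
  let u : KS F → p.A := fun w => match w with
    | .x t => sw {tt} e1 e2 t
    | .k _ => e1
  let v : KS F → p.B := fun w => match w with
    | .x t => p.f (sw {tt} e1 e2 t)
    | .k _ => b
  have hb : ∀ t, b ⤳ p.f (sw {tt} e1 e2 t) := fun t => by
    rcases two_cases t with rfl | rfl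
    · rwa [sw_tt]
    · rwa [sw_ff]
  obtain ⟨g, g0, g1, g2⟩ := hp _ hs (u ∘ Subtype.val) v
    (continuous_def.2 fun V _ => ⟨{w | u w ∈ V ∨ ∃ a, w = KS.k a},
      fun _ _ => .of_forall fun a => Or.inr ⟨a, rfl⟩, by
        ext ⟨_, t, rfl⟩
        exact ⟨fun h => h.elim id fun ⟨_, h⟩ => (by cases h), Or.inl⟩⟩)
    (continuous_def.2 fun V hV t h => .of_forall fun _ => (hb t).mem_open hV h)
    (by rintro ⟨_, t, rfl⟩; rfl)
  obtain ⟨ω, hω⟩ := F2 fun a => g (KS.k a)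
  have key : ∀ t, ω ⤳ sw {tt} e1 e2 t := fun t =>
    specializes_iff_forall_open.2 fun V hV h => by
      have h3 : KS.x t ∈ g ⁻¹' V := by
        rw [mem_preimage, show g (KS.x t) = _ from g1 ⟨_, t, rfl⟩]; exact h
      obtain ⟨a, a1, a2⟩ := (hω.and_eventually (hV.preimage g0 t h3)).exists
      exact a1 ▸ a2
  obtain ⟨a, ha⟩ := hω.exists
  exact ⟨ω, ha ▸ g2 _, sw_tt e1 e2 ▸ key tt, sw_ff e1 e2 ▸ key ff⟩

inductive OS {κ : Type u} (F : Filter κ) : Type u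
  | x0
  | x1
  | k (a : κ)

instance {κ : Type u} (F : Filter κ) : TopologicalSpace (OS F) where
  IsOpen U := (∀ w ∈ U, OS.x1 ∈ U) ∧ (OS.x0 ∈ U → ∀ᶠ a in F, OS.k a ∈ U)
  isOpen_univ := ⟨fun _ _ => trivial, fun _ => .of_forall fun _ => trivial⟩
  isOpen_inter _ _ h1 h2 := ⟨fun w h => ⟨h1.1 w h.1, h2.1 w h.2⟩,
    fun h => (h1.2 h.1).and (h2.2 h.2)⟩
  isOpen_sUnion _ h := ⟨fun w ⟨t, ht, h1⟩ => ⟨t, ht, (h t ht).1 w h1⟩,
    fun ⟨t, ht, h1⟩ => ((h t ht).2 h1).mono fun _ h2 => ⟨t, ht, h2⟩⟩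

theorem lemO {X : Set Ar.{u}} (hX : ∀ i ∈ X, OO i) : aj ∈ l (r (r X)) := by
  refine fun p hp => j_lift fun e b hb => ?_
  obtain ⟨κ, F, F1, F2⟩ := big p.A
  let s : Set (OS F) := (range OS.k)ᶜ
  have hs : sub s ∈ r X := by
    refine fun i hi => lift_sub s fun v hv h y ⟨a, ha⟩ => ?_
    refine hX i hi (v ⁻¹' {OS.k a}) (IsClosed.preimage hv (isOpen_compl_iff.1 ⟨?_, ?_⟩))
        (fun a' h' => h a' ⟨a, h'.symm⟩) y ha.symm
    · exact fun _ _ h => by cases h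
    · exact fun _ => mem_of_superset (F1 a) fun a' h h' => h (OS.k.inj h')
  obtain ⟨g, g0, g1, g2⟩ := hp _ hs (fun _ => e) (sw s (p.f e) b) continuous_const
    (cont_sw_insep _ hb.symm) (fun a => (sw_pos a.2).symm)
  obtain ⟨ω, hω⟩ := F2 fun a => g (OS.k a)
  have e0 : g OS.x0 = e := g1 ⟨_, fun ⟨_, h⟩ => by cases h⟩
  have e1 : g OS.x1 = e := g1 ⟨_, fun ⟨_, h⟩ => by cases h⟩
  obtain ⟨a, ha⟩ := hω.exists
  refine ⟨ω, ha ▸ (g2 _).trans (sw_neg (U := s) fun h => h ⟨a, rfl⟩),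
    inseparable_iff_forall_isOpen.2 fun V hV => ⟨fun h => ?_, fun h => ?_⟩⟩
  · exact e1 ▸ (hV.preimage g0).1 (OS.k a) (show g _ ∈ V from ha ▸ h)
  · obtain ⟨a, a1, a2⟩ := (hω.and_eventually ((hV.preimage g0).2
      (show g _ ∈ V from e0 ▸ h))).exists
    exact a1 ▸ a2

theorem kk_of {X : Set Ar.{u}} (h : ¬ ∀ f ∈ l X, Sur f) : ∀ g ∈ l (l X), KK g := by
  push Not at h
  obtain ⟨f, hf, h⟩ := h
  have : ∃ f ∈ l X, Nonempty f.A ∧ ¬ Sur f := by
    rcases isEmpty_or_nonempty f.A with hA | hA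
    · refine ⟨ad, fun p hp => d_lift fun _ b => ?_, ⟨⟨⟩⟩, fun h => tt_ne (h ff).choose_spec⟩
      obtain ⟨y, -⟩ := not_forall.1 h
      obtain ⟨k, -, -, k2⟩ := hf p hp isEmptyElim (fun _ => b) (by fun_prop)
        continuous_const isEmptyElim
      exact ⟨_, k2 y⟩
    · exact ⟨f, hf, hA, h⟩
  obtain ⟨f, hf, ⟨a⟩, h⟩ := this
  obtain ⟨y, hy⟩ := not_forall.1 h
  intro g hg U hU h1 b hb
  obtain ⟨k, -, -, k2⟩ := hg f hf (fun _ => a) (sw U y (f.f a)) continuous_const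
    (cont_sw_clopen hU _ _) (fun a => (sw_neg (h1 a)).symm)
  exact hy ⟨_, (k2 b).trans (sw_pos hb)⟩

theorem caseB {X : Set Ar.{u}} (h1 : ¬ ∀ f ∈ l X, Sur f) (h2 : ¬ ∀ p ∈ X, T1F p)
    (h3 : ¬ ∀ g ∈ l (l X), Sur g) : ∀ f ∈ l X, Ind f := by
  intro f hf
  by_contra h
  push Not at h3
  obtain ⟨g, hg, h3⟩ := h3
  obtain ⟨y, hy⟩ := not_forall.1 h3
  exact kk_of h1 g hg {y} ((fin_of_lift_β (hg _ ((nind hf h).resolve_left h2))).clopen hy)
    (fun a h => hy ⟨a, h⟩) y rfl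

theorem T1 {X : Set Ar.{u}} (hX : ∀ i ∈ X, KK i) (h : ∀ f ∈ r X, Ind f) :
    r (r (r X)) ∈ F0 := by
  refine Or.inr (Subset.antisymm (fun t ht => t1f_of_σ_lift (ht _ fun f hf => lift_σ (h f hf)))
    fun t ht p hp => ?_)
  obtain ⟨s, s0, s2⟩ := sect (hp (a0 p.B) fun i hi u v _ _ _ => by
    have : IsEmpty i.B := ⟨fun b => hX i hi univ isClopen_univ (fun a => (u a).elim) b trivial⟩
    exact ⟨isEmptyElim, by fun_prop, fun a => (u a).elim, isEmptyElim⟩)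
  refine lift_of_fin (fun T hT => ?_) fun u v hu _ hc => ⟨fun a a' e => ?_,
    fun b hb => absurd ⟨_, s2 b⟩ hb⟩
  · convert hT.preimage s0
    ext b; simp [s2]
  · obtain ⟨ω, w1, w2, w3⟩ := lemK hX hp (e1 := a) (e2 := a') specializes_rfl (e ▸ specializes_rfl)
    exact (ht _ _ (by rw [hc, hc, w1]) (w2.map hu)).symm.trans
      (ht _ _ (by rw [hc, hc, w1, e]) (w3.map hu))

theorem cores_lift {i p : Ar.{u}} (h : Lift i p) : Lift i (cores p) := by
  intro u v hu hv hc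
  obtain ⟨g, g0, g1, g2⟩ := h u (Subtype.val ∘ v) hu (continuous_subtype_val.comp hv)
    fun a => congrArg Subtype.val (hc a)
  exact ⟨g, g0, g1, fun b => Subtype.ext (g2 b)⟩

/-- a right class whose left closure avoids the Sierpinski collapse -/
theorem rsplit {X : Set Ar.{u}} (h : ¬ ∀ p ∈ r (r X), T1F p) :
    (∀ f ∈ r X, Inj f) ∨ ((∀ f ∈ r X, Ind f) ∧ ∀ i ∈ X, Inj i) := by
  by_cases h1 : ∀ f ∈ r X, Inj f
  · exact Or.inl h1
  push Not at h1
  obtain ⟨f, hf, h1⟩ := h1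
  have hι := ι_mem (sub_rl _ hf) h1
  have hind : ∀ f ∈ r X, Ind f := by
    intro f hf
    by_contra h2
    refine h fun p hp a a' e hs => ?_
    have hβ := ((nind (sub_rl _ hf) h2).resolve_left h) p hp
    obtain ⟨g, g0, g1, -⟩ := hβ (sw {tt} a a') (fun _ => p.f a) (cont_sw_spec S2_open hs)
      continuous_const (sw_map _ _ e)
    refine (inj_or_t0f (hι p hp)).resolve_left (fun h => tt_ne (h rfl)) _ _ e ?_
    have := (I2_insep tt ff).map g0
    rwa [show g tt = a from (g1 tt).trans (sw_tt _ _),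
      show g ff = a' from (g1 ff).trans (sw_ff _ _)] at this
  refine Or.inr ⟨hind, fun i hi => (inj_or_t0f (hf i hi)).resolve_right fun h0 => h1
    fun a a' e => h0 _ _ e ((IsInducing.inseparable_iff (hind f hf)).1 (.of_eq e))⟩

abbrev ao : Ar.{u} := ⟨PUnit, S2, fun _ => tt, continuous_const⟩

theorem oo_of_lift {i : Ar.{u}} (h : Lift i ao) : OO i := by
  intro U hU h1 b hb
  obtain ⟨g, -, -, g2⟩ := h (fun _ => ⟨⟩) (sw Uᶜ tt ff) continuous_const
    (cont_sw_spec hU.isOpen_compl S2_spec) (fun a => (sw_pos (U := Uᶜ) (h1 a)).symm)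
  exact sw_tt_iff.1 (g2 b).symm hb

theorem nclosed {X : Set Ar.{u}} {f : Ar.{u}} (hf : f ∈ l X) (h : ¬ IsClosed (range f.f)) :
    ao ∈ l X ∨ aj ∈ l X := by
  rw [← closure_subset_iff_isClosed, not_subset] at h
  obtain ⟨y, y1, y2⟩ := h
  have key : ∀ {E : Type u} [TopologicalSpace E] (e : E) (g : f.B → E), Continuous g →
      (∀ a, g (f.f a) = e) → e ⤳ g y := by
    intro E _ e g g0 g1
    refine specializes_iff_forall_open.2 fun V hV h => ?_
    obtain ⟨_, h1, a, rfl⟩ := mem_closure_iff.1 y1 _ (hV.preimage g0) h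
    exact g1 a ▸ h1
  by_cases h1 : ∃ a, y ⤳ f.f a
  · obtain ⟨a, ha⟩ := h1
    refine Or.inr fun p hp => j_lift fun e b hb => ?_
    obtain ⟨g, g0, g1, g2⟩ := hf p hp (fun _ => e) (sw (range f.f) (p.f e) b) continuous_const
      (cont_sw_insep _ hb.symm) (fun a => (sw_pos (mem_range_self a)).symm)
    exact ⟨g y, (g2 y).trans (sw_neg y2), (g1 a ▸ ha.map g0).antisymm (key e g g0 g1)⟩
  · refine Or.inl fun p hp u v _ hv hc => ?_
    have h2 : p.f (u ⟨⟩) ⤳ v ff := by rw [hc]; exact S2_spec.map hv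
    obtain ⟨g, g0, g1, g2⟩ := hf p hp (fun _ => u ⟨⟩) (sw (closure {y})ᶜ (p.f (u ⟨⟩)) (v ff))
      continuous_const (cont_sw_spec isClosed_closure.isOpen_compl h2)
      (fun a => (sw_pos (U := (closure {y})ᶜ) fun h =>
        h1 ⟨a, specializes_iff_mem_closure.2 h⟩).symm)
    refine ⟨sw {tt} (u ⟨⟩) (g y), cont_sw_spec S2_open (key _ g g0 g1), fun _ => sw_tt _ _,
      fun b => ?_⟩
    rcases two_cases b with rfl | rfl
    · exact (congrArg p.f (sw_tt _ _)).trans (hc _)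
    · exact (congrArg p.f (sw_ff _ _)).trans ((g2 y).trans
        (sw_neg (U := (closure {y})ᶜ) fun h => h (subset_closure rfl)))

end Pool.Agent.H.MP_97cbc3_al
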