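import Pool.Agent.H.MP_97cbc3_al.C

namespace Pool.Agent.H.MP_97cbc3_al

open Topology Set Function

universe u

theorem h_l4 (X : Set Ar.{u}) : l (l (l X)) ∈ F0 ∨ l (l (l (l X))) ∈ F0 := by
  by_cases h : ∀ f ∈ l X, Inj f
  · exact Or.inl (L1 fun p hp => (h p hp).t1f)
  · push Not at h
    obtain ⟨f, hf, h⟩ := h
    exact Or.inr (L1 fun p hp => (lift_ι.1 (hp _ (ι_mem hf h))).t1f)

theorem h_r4 (X : Set Ar.{u}) : r (r (r X)) ∈ F0 ∨ r (r (r (r X))) ∈ F0 := by
  by_cases h : ∀ f ∈ r X, Sur f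
  · exact Or.inl (R1 h)
  · push Not at h
    obtain ⟨f, hf, h⟩ := h
    obtain ⟨y, hy⟩ := not_forall.1 h
    refine Or.inr (R1 fun p hp => e_lift.1 (hp _ fun i hi u v _ _ _ => ?_))
    have : IsEmpty i.A := ⟨fun a => (u a).elim⟩
    obtain ⟨g, -, -, g2⟩ := hf i hi isEmptyElim (fun _ => y) (by fun_prop) continuous_const
      isEmptyElim
    have : IsEmpty i.B := ⟨fun b => hy ⟨_, g2 b⟩⟩
    exact ⟨isEmptyElim, by fun_prop, isEmptyElim, isEmptyElim⟩

theorem h_rrlll (X : Set Ar.{u}) :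
    l (l (r (r X))) ∈ F0 ∨ l (l (l (r (r X)))) ∈ F0 := by
  by_cases h : ∀ p ∈ r (r X), T1F p
  · exact Or.inl (L1 h)
  rcases rsplit h with h1 | ⟨h1, h2⟩
  · exact Or.inr (L1 fun p hp => (rl_inj h1 p hp).t1f)
  · refine Or.inr (hitL (fun g hg => fin_of_lift_β (hg _ fun f hf =>
      bij_lift_ind injective_id surjective_id (rl_ind h1 f hf))) (Or.inr fun p hp => ?_))
    exact lift_ι.1 (hp _ (sub_rl _ fun i hi => lift_ι.2 (h2 i hi)))

theorem h_llrrr (X : Set Ar.{u}) :
    l (l X) ∈ F0 ∨ r (r (l (l X))) ∈ F0 ∨ r (r (r (l (l X)))) ∈ F0 := by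
  by_cases h : ∀ p ∈ X, T1F p
  · exact Or.inl (L1 h)
  by_cases h1 : ∀ g ∈ l (l X), Sur g
  · exact Or.inr (Or.inl (R1 h1))
  by_cases h2 : ∀ f ∈ l X, Sur f
  · exact Or.inr (Or.inr (R1 (lr_sur h2)))
  · exact Or.inr (Or.inr (T1 (kk_of h2) (lr_ind (caseB h2 h h1))))

theorem h_alt (X L R N R' N' R'' N'' : Set Ar.{u}) (e0 : L = l X) (e1 : R = r (l L))
    (e2 : N = l (r R)) (e3 : R' = r (l N)) (e4 : N' = l (r R')) (e5 : R'' = r (l N'))
    (e6 : N'' = l (r R'')) :
    l L ∈ F0 ∨ R ∈ F0 ∨ r R ∈ F0 ∨ l N ∈ F0 ∨ R' ∈ F0 ∨ r R'' ∈ F0 ∨ r (r (l N'')) ∈ F0 := by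
  by_cases h : ∀ p ∈ X, T1F p
  · exact Or.inl (e0 ▸ L1 h)
  by_cases h1 : ∀ g ∈ l L, Sur g
  · exact Or.inr (Or.inr (Or.inl (e1 ▸ R1 h1)))
  by_cases h3 : ∀ p ∈ r R, T1F p
  · exact Or.inr (Or.inr (Or.inr (Or.inl (e2 ▸ L1 h3))))
  by_cases h2 : ∀ f ∈ L, Sur f
  · have hR : ∀ f ∈ R, Sur f := e1 ▸ lr_sur h2
    by_cases h4 : ∀ f ∈ R, Ind f
    · refine Or.inr (Or.inl ?_)
      subst e1
      refine hitR fun p hp i _ i2 _ _ => lift_of_ind (h4 p hp) fun u v _ _ hc =>
        ⟨fun a a' e => ?_, fun b _ => hR p hp _⟩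
      rcases rsplit h3 with h5 | ⟨-, h5⟩
      · exact inj_c (h5 p hp) hc _ _ e
      · rw [i2 h5 e]
    · have h5 : ∀ f ∈ R, Inj f := by
        subst e1
        exact (rsplit h3).resolve_right fun h => h4 h.1
      push Not at h4
      obtain ⟨f, hf, h4⟩ := h4
      have hβ := (nind (sub_rl _ hf) h4).resolve_left h3
      refine Or.inr (Or.inr (Or.inr (Or.inr (Or.inl ?_))))
      subst e3 e2
      exact hitR fun p hp i _ _ _ i4 => lift_of_fin (i4 fun j hj => fin_of_lift_β (hj _ hβ))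
        fun u v _ _ hc => ⟨inj_c (lr_inj (rl_inj h5) p hp) hc, fun b _ => lr_sur (rl_sur hR) p hp _⟩
  · have hK : ∀ g ∈ l L, KK g := by subst e0; exact kk_of h2
    have hL : ∀ f ∈ L, Ind f := by subst e0; exact caseB h2 h h1
    have hR' : ∀ f ∈ R', Ind f := by subst e3 e2 e1; exact lr_ind (rl_ind (lr_ind hL))
    have hc : ac ∈ N := by
      subst e2 e1
      exact fun p hp => c_lift fun e b hb => (lemK hK hp hb hb).imp fun _ h => ⟨h.1, h.2.1⟩
    by_cases h4 : ∀ f ∈ R', IsClosed (range f.f)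
    · refine Or.inr (Or.inr (Or.inr (Or.inr (Or.inl ?_))))
      subst e3
      refine hitR fun p hp i _ i2 i3 _ => lift_of_ind (hR' p hp) fun u v _ hv hc' =>
        ⟨fun a a' e => ?_, fun b _ => ?_⟩
      · by_cases h0 : T0F p
        · have : p.f (u a) = p.f (u a') := by rw [hc', hc', e]
          exact h0 _ _ this ((IsInducing.inseparable_iff (hR' p hp)).1 (.of_eq this))
        · rw [i2 (fun j hj => (inj_or_t0f (hp j hj)).resolve_right h0) e]
      · refine DenseRange.induction_on (i3 fun j hj => den_of_lift_c (hj _ hc)) b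
          (p := fun b => v b ∈ range p.f) ((h4 p hp).preimage hv) fun a => ⟨_, hc' a⟩
    · push Not at h4
      obtain ⟨f, hf, h4⟩ := h4
      refine Or.inr (Or.inr (Or.inr (Or.inr (Or.inr ?_))))
      subst e6 e5 e4
      rcases nclosed (sub_rl _ hf) h4 with h5 | h5
      · exact Or.inr (R1 fun i hi => lift_j.1 (hi _ (lemO fun j hj => oo_of_lift (hj _ h5))))
      · exact Or.inl (R1 fun i hi => lift_j.1 (hi _ h5))

/-! ### words -/

def act (w : List Bool) (P : Set Ar.{u}) : Set Ar.{u} :=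
  w.foldl (fun Q b => cond b (l Q) (r Q)) P

theorem act_append (a b : List Bool) (P : Set Ar.{u}) : act (a ++ b) P = act b (act a P) :=
  List.foldl_append

def hits : List (List Bool) :=
  [[true, true, true, true], [false, false, false, false], [false, false, true, true, true],
    [true, true, false, false, false],
    [true, true, false, false, true, true, false, false,
      true, true, false, false, true, true, false, false]]

theorem hits_spec : ∀ h ∈ hits, ∀ X : Set Ar.{u},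
    ∃ k, 0 < k ∧ k ≤ h.length ∧ act (h.take k) X ∈ F0 := by
  intro h hh X
  simp only [hits, List.mem_cons, List.not_mem_nil, or_false] at hh
  rcases hh with rfl | rfl | rfl | rfl | rfl
  · rcases h_l4 X with h | h
    exacts [⟨3, by decide, by decide, h⟩, ⟨4, by decide, by decide, h⟩]
  · rcases h_r4 X with h | h
    exacts [⟨3, by decide, by decide, h⟩, ⟨4, by decide, by decide, h⟩]
  · rcases h_rrlll X with h | h
    exacts [⟨4, by decide, by decide, h⟩, ⟨5, by decide, by decide, h⟩]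
  · rcases h_llrrr X with h | h | h
    exacts [⟨2, by decide, by decide, h⟩, ⟨4, by decide, by decide, h⟩,
      ⟨5, by decide, by decide, h⟩]
  · rcases h_alt X _ _ _ _ _ _ _ rfl rfl rfl rfl rfl rfl rfl with h | h | h | h | h | h | h
    exacts [⟨2, by decide, by decide, h⟩, ⟨3, by decide, by decide, h⟩,
      ⟨4, by decide, by decide, h⟩, ⟨6, by decide, by decide, h⟩, ⟨7, by decide, by decide, h⟩,
      ⟨12, by decide, by decide, h⟩, ⟨16, by decide, by decide, h⟩]

def forb : List (List Bool) := [true, false, true] :: [false, true, false] :: hits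

def ok (w : List Bool) : Bool := forb.all fun h => !decide (h <:+: w)

def lvl : ℕ → List (List Bool)
  | 0 => [[]]
  | n + 1 => ((lvl n).flatMap fun w => [true :: w, false :: w]).filter ok

theorem mem_lvl : ∀ w : List Bool, ok w = true → w ∈ lvl w.length
  | [], _ => List.mem_singleton.2 rfl
  | a :: w, h => by
    have h1 : ok w = true := by
      simp only [ok, List.all_eq_true, Bool.not_eq_true', decide_eq_false_iff_not] at h ⊢
      exact fun x hx h2 => h x hx (h2.trans (List.suffix_cons a w).isInfix)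
    refine List.mem_filter.2 ⟨List.mem_flatMap.2 ⟨w, mem_lvl w h1, ?_⟩, h⟩
    cases a <;> simp

theorem lvl_nil : lvl 24 = [] := by decide +kernel

theorem factor (w : List Bool) (h : 24 ≤ w.length) :
    ∃ a x b, x ∈ forb ∧ w = a ++ (x ++ b) ∧ (a ++ x).length ≤ 24 := by
  have h1 : (w.take 24).length = 24 := by simp [h]
  have h2 : ¬ ok (w.take 24) = true := fun h2 => by
    have := mem_lvl _ h2
    rw [h1, lvl_nil] at this
    cases this
  simp only [ok, List.all_eq_true, Bool.not_eq_true', decide_eq_false_iff_not] at h2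
  push Not at h2
  obtain ⟨x, hx, a, b, e⟩ := h2
  refine ⟨a, x, b ++ w.drop 24, hx, ?_, ?_⟩
  · rw [← List.append_assoc, ← List.append_assoc, e, List.take_append_drop]
  · rw [← h1, ← e]; simp

theorem reduce (w : List Bool) (h : 24 ≤ w.length) :
    (∃ w', w'.length < w.length ∧ act.{u} w' = act w) ∨
      ∃ a x b, x ∈ hits ∧ w = a ++ (x ++ b) ∧ (a ++ x).length ≤ 24 := by
  obtain ⟨a, x, b, hx, rfl, h1⟩ := factor w h
  simp only [forb, List.mem_cons] at hx
  rcases hx with rfl | rfl | hx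
  · refine Or.inl ⟨a ++ ([true] ++ b), by simp, funext fun P => ?_⟩
    simp only [act_append]
    exact congrArg (act b) (lrl _).symm
  · refine Or.inl ⟨a ++ ([false] ++ b), by simp, funext fun P => ?_⟩
    simp only [act_append]
    exact congrArg (act b) (rlr _).symm
  · exact Or.inr ⟨a, x, b, hx, rfl, h1⟩

def FF : Set (Set Ar.{u}) := image2 act {w | w.length ≤ 24} F0

theorem FF_finite : FF.{u}.Finite := (List.finite_length_le Bool 24).image2 _ F0_finite

theorem split_hit {x : List Bool} (hx : x ∈ hits) (b : List Bool) (P : Set Ar.{u}) :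
    ∃ Q ∈ F0, ∃ c : List Bool, c.length < (x ++ b).length ∧ act (x ++ b) P = act c Q := by
  obtain ⟨k, k0, k1, k2⟩ := hits_spec x hx P
  refine ⟨_, k2, x.drop k ++ b, by simp; omega, ?_⟩
  rw [← act_append, ← List.append_assoc, List.take_append_drop]

theorem act_F0 (n : ℕ) : ∀ w : List Bool, w.length = n → ∀ Q ∈ F0.{u}, act w Q ∈ FF := by
  induction n using Nat.strong_induction_on with
  | _ n ih =>
    intro w hw Q hQ
    by_cases h : w.length ≤ 24
    · exact mem_image2_of_mem h hQ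
    rcases reduce.{u} w (by omega) with ⟨w', h1, h2⟩ | ⟨a, x, b, hx, rfl, -⟩
    · rw [← h2]; exact ih _ (hw ▸ h1) w' rfl Q hQ
    · obtain ⟨Q', h1, c, h2, h3⟩ := split_hit hx b (act a Q)
      rw [act_append, h3]
      exact ih c.length (by rw [← hw, List.length_append]; omega) c rfl Q' h1

theorem act_FF (w : List Bool) {Q : Set Ar.{u}} (h : Q ∈ FF) : act w Q ∈ FF := by
  obtain ⟨a, -, Q', h1, rfl⟩ := h
  rw [← act_append]; exact act_F0 _ _ rfl _ h1

theorem finite_act : (range act.{u}).Finite := by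
  have := FF_finite.{u}.to_subtype
  let S : List Bool → Set (Set Ar.{u} → Set Ar.{u}) := fun a =>
    {φ | φ = act a ∨ ∃ (h : ∀ P, act a P ∈ FF) (ψ : FF.{u} → FF.{u}),
      φ = fun P => (ψ ⟨_, h P⟩).1}
  have hS : ∀ a, (S a).Finite := by
    intro a
    refine (finite_singleton (act a)).union ?_
    by_cases h : ∀ P, act.{u} a P ∈ FF
    · refine (finite_range fun (ψ : FF.{u} → FF.{u}) P => (ψ ⟨_, h P⟩).1).subset ?_
      rintro _ ⟨_, ψ, rfl⟩
      exact ⟨ψ, rfl⟩
    · refine finite_empty.subset ?_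
      rintro _ ⟨h', -⟩
      exact h h'
  refine ((List.finite_length_le Bool 24).biUnion fun a _ => hS a).subset ?_
  rintro _ ⟨w, rfl⟩
  induction hn : w.length using Nat.strong_induction_on generalizing w with
  | _ n ih =>
    by_cases h : w.length ≤ 24
    · exact mem_biUnion h (Or.inl rfl)
    rcases reduce.{u} w (by omega) with ⟨w', h1, h2⟩ | ⟨a, x, b, hx, rfl, h1⟩
    · rw [← h2]; exact ih _ (hn ▸ h1) w' rfl
    · refine mem_biUnion h1 (Or.inr ⟨fun P => ?_, fun Q => ⟨act b Q.1, act_FF b Q.2⟩, ?_⟩)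
      · obtain ⟨Q', h1, c, -, h3⟩ := split_hit hx [] (act a P)
        rw [act_append, ← List.append_nil x, h3]
        exact act_F0 _ c rfl Q' h1
      · funext P
        rw [← List.append_assoc, act_append]

end Pool.Agent.H.MP_97cbc3_al
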