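import Pool.Agent.H.MP_97cbc3_al.D

namespace Pool.Agent.H.MP_97cbc3_al

open Topology Set Function CategoryTheory

universe u

theorem iso2 {Y : Set Ar.{u}} (h : ∀ t ∈ Y, Fin' t ∧ Inj t) : l (l Y) = l univ := by
  refine Subset.antisymm (fun g hg p _ => ?_) (l_anti (subset_univ _))
  have key : ∀ i : Ar.{u}, KK i → i ∈ l Y := by
    intro i hi t ht
    obtain ⟨h1, h2⟩ := h t ht
    refine lift_of_ind (ind_iff.2 fun U hU => ⟨t.f '' U, h1 _ ?_, preimage_image_eq _ h2⟩)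
      fun u v _ hv hc => ⟨inj_c h2 hc, fun b _ => not_not.1 (hi (v ⁻¹' (range t.f)ᶜ)
        (IsClopen.preimage ⟨isOpen_compl_iff.1 (h1 _ ?_), h1 _ ?_⟩ hv)
        (fun a h => h ⟨_, hc a⟩) b)⟩
    · rwa [preimage_image_eq _ h2]
    · simp
    · simp
  have k2 : ∀ i : Ar.{u}, Sur i → i ∈ l Y := fun i hi => key i fun U _ h b => by
    obtain ⟨a, rfl⟩ := hi b; exact h a
  have h1 : Sur g := lift_j.1 (hg _ (key _ fun U hU h b hb =>
    h ⟨⟩ (((I2_insep b tt).mem_open_iff hU.isOpen).1 hb)))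
  have h2 : Inj g := lift_ι.1 (hg _ (k2 _ fun _ => ⟨tt, rfl⟩))
  exact lift_of_fin (fin_of_lift_β (hg _ (k2 _ surjective_id))) fun u v _ _ _ =>
    ⟨fun _ _ e => by rw [h2 e], fun b hb => absurd (h1 b) hb⟩

theorem iso_ll : l (l (l (univ : Set Ar.{u}))) = l univ :=
  iso2 fun _ ht => ⟨fin_of_lift_β (ht _ trivial), lift_ι.1 (ht _ trivial)⟩

theorem l6 (P : Set Ar.{u}) :
    l (l (l (l (l (l P))))) = l (l (l (l (l (l (l (l P))))))) := by
  by_cases h : ∀ f ∈ l P, Inj f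
  · rw [iso2 fun g hg => L1core (fun p hp => (h p hp).t1f) hg, iso_ll]
  · push Not at h
    obtain ⟨f, hf, h⟩ := h
    have h1 : ∀ p ∈ l (l P), T1F p := fun p hp => Inj.t1f (lift_ι.1 (hp _ (ι_mem hf h)))
    rw [iso2 fun g hg => L1core h1 hg, iso_ll]

/-! ### transfer to morphism properties -/

abbrev Ar.hom (f : Ar.{u}) : TopCat.of f.A ⟶ TopCat.of f.B := TopCat.ofHom ⟨f.f, f.hf⟩
abbrev ar {X Y : TopCat.{u}} (f : X ⟶ Y) : Ar.{u} := ⟨X, Y, f.hom, f.hom.continuous⟩

def toSet (P : MorphismProperty TopCat.{u}) : Set Ar.{u} := {f | P f.hom}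
def ofSet (S : Set Ar.{u}) : MorphismProperty TopCat.{u} := fun _ _ f => ar f ∈ S

theorem ofSet_toSet (P : MorphismProperty TopCat.{u}) : ofSet (toSet P) = P := rfl

theorem lift_iff (i p : Ar.{u}) : HasLiftingProperty i.hom p.hom ↔ Lift i p := by
  constructor
  · intro h u v hu hv hc
    have sq : CommSq (TopCat.ofHom ⟨u, hu⟩) i.hom p.hom (TopCat.ofHom ⟨v, hv⟩) :=
      ⟨by ext a; exact hc a⟩
    exact ⟨sq.lift.hom, sq.lift.hom.continuous,
      fun a => congrArg (fun k => k.hom a) sq.fac_left,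
      fun b => congrArg (fun k => k.hom b) sq.fac_right⟩
  · refine fun h => ⟨fun {u v} sq => ?_⟩
    obtain ⟨g, g0, g1, g2⟩ := h u.hom v.hom u.hom.continuous v.hom.continuous
      fun a => congrArg (fun k => k.hom a) sq.w
    exact ⟨⟨⟨TopCat.ofHom ⟨g, g0⟩, by ext a; exact g1 a, by ext b; exact g2 b⟩⟩⟩

theorem toSet_llp (P : MorphismProperty TopCat.{u}) : toSet P.llp = l (toSet P) :=
  Set.ext fun i => ⟨fun h p hp => (lift_iff i p).1 (h _ hp),
    fun h _ _ g hg => (lift_iff i (ar g)).2 (h _ hg)⟩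

theorem toSet_rlp (P : MorphismProperty TopCat.{u}) : toSet P.rlp = r (toSet P) :=
  Set.ext fun p => ⟨fun h i hi => (lift_iff i p).1 (h _ hi),
    fun h _ _ g hg => (lift_iff (ar g) p).2 (h _ hg)⟩

theorem toSet_foldl (w : List Bool) : ∀ P : MorphismProperty TopCat.{u},
    toSet (w.foldl (fun Q b => cond b Q.llp Q.rlp) P) = act w (toSet P) := by
  induction w with
  | nil => exact fun _ => rfl
  | cons a w ih =>
    intro P
    rw [List.foldl_cons, ih]
    cases a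
    · exact congrArg (act w) (toSet_rlp P)
    · exact congrArg (act w) (toSet_llp P)

theorem finite_neg : (range fun (w : List Bool) (P : MorphismProperty TopCat.{u}) =>
    w.foldl (fun Q b => cond b Q.llp Q.rlp) P).Finite := by
  refine (finite_act.{u}.image fun ψ P => ofSet (ψ (toSet P))).subset ?_
  rintro _ ⟨w, rfl⟩
  refine ⟨_, ⟨w, rfl⟩, funext fun P => ?_⟩
  exact congrArg ofSet (toSet_foldl w P).symm

theorem neg_l6 (P : MorphismProperty TopCat.{u}) :
    P.llp.llp.llp.llp.llp.llp = P.llp.llp.llp.llp.llp.llp.llp.llp := by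
  have : toSet P.llp.llp.llp.llp.llp.llp = toSet P.llp.llp.llp.llp.llp.llp.llp.llp := by
    simp only [toSet_llp]
    exact l6 _
  exact congrArg ofSet this

end Pool.Agent.H.MP_97cbc3_al
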